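import Pool.Agent.Helper36.RN.GoalsH

/-! Project RFn, existence part: packet DIC, the function level formulas and the algebra `XS n`. -/

namespace Pool.Agent.Helper2.RN

open Set Filter Topology Pool.Agent.Helper47.RFn Pool.Agent.Helper36.RN

variable {n : ℕ}

/-- the relation between functions on `EE n` and elements of `XS n` -/
def rl (F : EE n → ℝ) (f : XS n) : Prop := ∀ x : Om n, F x.1 = f.1 x

theorem rl_sm {F : EE n → ℝ} {f : XS n} (h : rl F f) : Sm F :=
  (sm_ext_iff (f := f.1) (F := F) fun x => (h x).symm).1 f.2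

theorem rl_ed {F : EE n → ℝ} {f : XS n} (h : rl F f) (i : Fin (n + 1)) : rl (ed i F) (Ee i f) := by
  intro x
  rw [Ee_apply]
  refine ed_congr (fun y hy => ?_) i x.2
  rw [ext_of_ne _ hy]
  exact h ⟨y, hy⟩

theorem rl_toXS {F : EE n → ℝ} (hF : Sm F) : rl F (toXS F hF) := fun _ => rfl

theorem ite_val (p : Prop) [Decidable p] (x : Om n) :
    ((if p then 1 else 0 : XS n)).1 x = if p then 1 else 0 := by
  by_cases h : p
  · rw [if_pos h, if_pos h]; rfl
  · rw [if_neg h, if_neg h]; rfl

theorem dic : G_DIC := by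
  intro n A θ hA ht
  set A' : Ix n → Ix n → XS n := fun a i => toXS _ (hA a i) with hA'
  set t' : Ix n → Ix n → XS n := fun i a => toXS _ (ht i a) with ht'
  have rA : ∀ a i, rl (fun x => A x a i) (A' a i) := fun a i => rl_toXS _
  have rt : ∀ i a, rl (fun x => θ x i a) (t' i a) := fun i a => rl_toXS _
  have rF : ∀ (F : EE n → ℝ) (f : XS n), rl F f → ∀ a, rl (Fdc A a F) (FR.Fd Ee A' a f) := by
    intro F f h a x
    simp only [Fdc, FR.Fd, sum_val, mul_val]
    refine Finset.sum_congr rfl fun i _ => ?_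
    rw [rl_ed h i x]
    rfl
  have rn : ∀ a, rl (nfc A a) (FR.nf nu A' a) := by
    intro a x
    simp only [nfc, FR.nf, sum_val, mul_val, nu_apply]
    rfl
  have rC : ∀ a b c, rl (Cc A θ a b c) (FR.C Ee nu A' t' a b c) := by
    intro a b c x
    simp only [Cc, FR.C, add_val, sum_val, mul_val, sub_val, ite_val]
    rw [rn a x, rn b x]
    congr 1
    refine Finset.sum_congr rfl fun j _ => ?_
    rw [rF _ _ (rA b j) a x, rF _ _ (rA a j) b x]
    rfl
  have rG : ∀ a b c, rl (Gamc A θ a b c) (FR.Gam Ee nu A' t' a b c) := by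
    intro a b c x
    simp only [Gamc, FR.Gam, smul_val, add_val, sub_val]
    rw [rC a b c x, rC b c a x, rC c a b x]
  have rK : ∀ a b c d, rl (Kf A θ a b c d) (FR.K Ee nu A' t' a b c d) := by
    intro a b c d x
    simp only [Kf, FR.K, add_val, sub_val, sum_val, mul_val]
    rw [rF _ _ (rG b c d) a x, rF _ _ (rG a c d) b x]
    congr 1
    · congr 1
      refine Finset.sum_congr rfl fun f _ => ?_
      rw [rG b c f x, rG a f d x, rG a c f x, rG b f d x]
    · refine Finset.sum_congr rfl fun f _ => ?_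
      rw [rC a b f x, rG f c d x]
  have rR : ∀ a c, rl (Rcf A θ a c) (FR.Rc Ee nu A' t' a c) := by
    intro a c x
    simp only [Rcf, Rf, FR.Rc, FR.R, sum_val, neg_val]
    refine Finset.sum_congr rfl fun b _ => ?_
    rw [rK a b c b x]
  refine ⟨fun f hf a => ?_, fun a x => rn a x, fun a b c => ⟨rl_sm (rG a b c), rG a b c⟩,
    fun a b c d => ⟨rl_sm (rK a b c d), rK a b c d⟩, fun a c => ⟨rl_sm (rR a c), rR a c⟩,
    fun u hu x => ?_⟩
  · have h := rF f (toXS f hf) (rl_toXS hf) a
    exact ⟨rl_sm h, h⟩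
  · have hu' : rl u (toXS u hu) := rl_toXS hu
    simp only [Lapf, sub_val, sum_val, mul_val]
    congr 1
    · exact Finset.sum_congr rfl fun a _ => rF _ _ (rF _ _ hu' a) a x
    · refine Finset.sum_congr rfl fun a _ => Finset.sum_congr rfl fun b _ => ?_
      rw [rG a a b x, rF _ _ hu' b x]

end Pool.Agent.Helper2.RN
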